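import Pool.Prelude.Def_F_f5f3026a
import Pool.Agent.Helper920_Ratio.Start2

/-! The independence sequence of a graph with `n` vertices and `m` edges is nondecreasing up to
about `n ^ 2 / (2 (n + m))`; for a tree this is about `n / 4`. -/

set_option autoImplicit false

namespace Pool.Agent.Results.MP_24a1b5_co.IncreasingStart

open Pool.Agent.Helper920.Ratio N36365310

lemma indep_iff {V : Type} (G : SimpleGraph V) (J : Finset V) :
    G.IsIndepSet (J : Set V) ↔ Indep G J := by
  constructor
  · intro h x hx y hy hxy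
    exact h hx hy hxy.ne hxy
  · intro h x hx y hy _ hxy
    exact h x hx y hy hxy

lemma seq_eq {V : Type} [Fintype V] (G : SimpleGraph V) (k : ℕ) :
    indepSeq G k = (ind G k).card := by
  classical
  unfold indepSeq
  rw [Nat.card_eq_fintype_card, Fintype.card_subtype]
  congr 1
  ext J
  rw [mem_ind, Finset.mem_filter, indep_iff]
  constructor
  · rintro ⟨_, h1, h2⟩; exact ⟨h2, h1⟩
  · rintro ⟨h1, h2⟩; exact ⟨Finset.mem_univ _, h2, h1⟩

lemma edge_sum {V : Type} [Fintype V] (G : SimpleGraph V) :
    ∑ v, ∑ w, a G v w = 2 * (G.edgeSet.ncard : ℤ) := by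
  classical
  have h1 : ∀ v, ∑ w, a G v w = (G.degree v : ℤ) := by
    intro v
    unfold a
    rw [Finset.sum_ite, Finset.sum_const_zero, add_zero, Finset.sum_const, nsmul_eq_mul, mul_one]
    have h2 : (Finset.univ.filter (fun w => G.Adj v w)).card = G.degree v := by
      rw [← SimpleGraph.card_neighborFinset_eq_degree]
      congr 1
      ext w
      simp
    rw [h2]
  rw [Finset.sum_congr rfl (fun v _ => h1 v)]
  have h3 := G.sum_degrees_eq_twice_card_edges
  have h4 : G.edgeSet.ncard = G.edgeFinset.card := by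
    rw [Set.ncard_eq_toFinset_card', SimpleGraph.edgeFinset]
  rw [h4]
  exact_mod_cast h3

/-- Let `G` be a graph with `n ≥ 1` vertices and `m` edges. If `k (2 n + 2 m) + n ≤ n ^ 2` then
`i_l(G) ≤ i_{l+1}(G)` for all `l ≤ k`. -/
theorem result : ∀ (V : Type) [Fintype V] [Nonempty V] (G : SimpleGraph V) (k : ℕ),
    k * (2 * Fintype.card V + 2 * G.edgeSet.ncard) + Fintype.card V ≤ Fintype.card V ^ 2 →
      ∀ l : ℕ, l ≤ k → indepSeq G l ≤ indepSeq G (l + 1) := by
  intro V _ _ G k hk l hl
  rw [seq_eq, seq_eq]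
  refine start G Fintype.card_pos l ?_
  rw [edge_sum]
  have h1 : l * (2 * Fintype.card V + 2 * G.edgeSet.ncard) + Fintype.card V ≤
      Fintype.card V ^ 2 :=
    le_trans (Nat.add_le_add_right (Nat.mul_le_mul_right _ hl) _) hk
  exact_mod_cast h1

end Pool.Agent.Results.MP_24a1b5_co.IncreasingStart
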